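import Mathlib
import Pool.Agent.H393R2.Geom3

/-! Rounding to a prescribed residue class along independent lattice vectors, and the matrix of the
forms `B^n P(ξ), a_1 / B, …, a_n / B`. -/

set_option autoImplicit false

namespace Pool.Agent.R330.EU

open Finset Pool.Agent.H393R2.Geom

/-- Rounding: if the rows of `G` are independent with images of norm at most `lam`, then every real
target is within `N M lam` of the image of an integer vector congruent to `b` modulo `M`. -/
theorem round_lem {N : ℕ} (L : Matrix (Fin N) (Fin N) ℝ) (hL : L.det ≠ 0)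
    (G : Matrix (Fin N) (Fin N) ℤ) (hG : G.det ≠ 0) (lam : ℝ)
    (hlam : ∀ j, ‖app L (G j)‖ ≤ lam) (b : Fin N → ℤ) (M : ℕ) (hM : 0 < M) (y : Fin N → ℝ) :
    ∃ z : Fin N → ℤ, (∀ i, ∃ c : ℤ, z i = b i + M * c) ∧ ‖app L z - y‖ ≤ N * (M * lam) := by
  have hM0 : (0 : ℝ) < M := by exact_mod_cast hM
  set A := MM L G with hA
  have hAdet : IsUnit A.det := by
    rw [isUnit_iff_ne_zero, hA, det_MM]
    exact mul_ne_zero (by exact_mod_cast hG) hL
  set t : Fin N → ℝ := y - app L b with ht
  set r : Fin N → ℝ := Matrix.vecMul t A⁻¹ with hr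
  have hrA : Matrix.vecMul r A = t := by
    rw [hr, Matrix.vecMul_vecMul, Matrix.nonsing_inv_mul _ hAdet, Matrix.vecMul_one]
  have hrA' : ∑ j, r j • app L (G j) = t := by
    rw [← hrA]
    ext l
    simp only [Finset.sum_apply, Pi.smul_apply, smul_eq_mul, Matrix.vecMul, dotProduct]
    apply Finset.sum_congr rfl
    intro j _
    rw [hA, MM_apply]
  set k : Fin N → ℤ := fun j => round (r j / M) with hk
  refine ⟨b + ∑ j, ((M : ℤ) * k j) • G j, fun i => ⟨∑ j, k j * G j i, ?_⟩, ?_⟩
  · simp only [Pi.add_apply, Finset.sum_apply, Pi.smul_apply, smul_eq_mul]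
    rw [Finset.mul_sum]
    congr 1
    apply Finset.sum_congr rfl
    intro j _
    ring
  · have h1 : app L (b + ∑ j, ((M : ℤ) * k j) • G j) - y =
        ∑ j, ((M : ℝ) * k j - r j) • app L (G j) := by
      rw [map_add, map_sum]
      have h2 : ∑ j, app L (((M : ℤ) * k j) • G j) = ∑ j, ((M : ℝ) * k j) • app L (G j) := by
        apply Finset.sum_congr rfl
        intro j _
        rw [LinearMap.map_smul]
        ext l
        simp
      rw [h2]
      have h3 : ∑ j, ((M : ℝ) * k j - r j) • app L (G j) =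
          ∑ j, ((M : ℝ) * k j) • app L (G j) - ∑ j, r j • app L (G j) := by
        rw [← Finset.sum_sub_distrib]
        apply Finset.sum_congr rfl
        intro j _
        rw [sub_smul]
      rw [h3, hrA', ht]
      abel
    rw [h1]
    calc ‖∑ j, ((M : ℝ) * k j - r j) • app L (G j)‖
        ≤ ∑ j, ‖((M : ℝ) * k j - r j) • app L (G j)‖ := norm_sum_le _ _
      _ ≤ ∑ _j : Fin N, (M * lam) := by
          apply Finset.sum_le_sum
          intro j _
          rw [norm_smul]
          apply mul_le_mul _ (hlam j) (norm_nonneg _) hM0.le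
          rw [Real.norm_eq_abs]
          have h4 : |r j / M - round (r j / M)| ≤ 1 / 2 := abs_sub_round _
          have h5 : (M : ℝ) * k j - r j = -(M * (r j / M - round (r j / M))) := by
            simp only [hk]
            field_simp
            ring
          rw [h5, abs_neg, abs_mul, abs_of_pos hM0]
          nlinarith
      _ = N * (M * lam) := by simp

/-- The matrix of the linear forms `B^n P(ξ), a_1 / B, …, a_n / B` in `a_0, …, a_n`. -/
noncomputable def Lm (n : ℕ) (ξ B : ℝ) : Matrix (Fin (n + 1)) (Fin (n + 1)) ℝ :=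
  fun i j => if i = 0 then B ^ n * ξ ^ (j : ℕ) else if j = i then B⁻¹ else 0

theorem Lm_det (n : ℕ) (ξ B : ℝ) (hB : B ≠ 0) : (Lm n ξ B).det = 1 := by
  have h : (Lm n ξ B).BlockTriangular id := by
    intro i j hij
    simp only [id] at hij
    unfold Lm
    have hi : i ≠ 0 := by
      rintro rfl
      exact absurd hij (Fin.not_lt_zero j)
    rw [if_neg hi, if_neg (ne_of_lt hij)]
  rw [Matrix.det_of_upperTriangular h, Fin.prod_univ_succ]
  have h0 : Lm n ξ B 0 0 = B ^ n := by unfold Lm; simp
  have h1 : ∀ i : Fin n, Lm n ξ B i.succ i.succ = B⁻¹ := by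
    intro i
    unfold Lm
    rw [if_neg (Fin.succ_ne_zero i), if_pos rfl]
  rw [h0]
  simp only [h1, Finset.prod_const, Finset.card_univ, Fintype.card_fin]
  rw [inv_pow, mul_inv_cancel₀ (pow_ne_zero _ hB)]

theorem Lm_app_zero (n : ℕ) (ξ B : ℝ) (z : Fin (n + 1) → ℤ) :
    app (Lm n ξ B) z 0 = B ^ n * ∑ j, (z j : ℝ) * ξ ^ (j : ℕ) := by
  rw [app_apply]
  simp only [Matrix.mulVec, dotProduct, Lm, if_true]
  rw [Finset.mul_sum]
  apply Finset.sum_congr rfl
  intro j _
  ring

theorem Lm_app (n : ℕ) (ξ B : ℝ) (z : Fin (n + 1) → ℤ) (i : Fin (n + 1)) (hi : i ≠ 0) :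
    app (Lm n ξ B) z i = (z i : ℝ) / B := by
  rw [app_apply]
  simp only [Matrix.mulVec, dotProduct, Lm, if_neg hi]
  rw [Finset.sum_eq_single i]
  · rw [if_pos rfl]
    ring
  · intro j _ hj
    rw [if_neg hj, zero_mul]
  · intro h
    exact absurd (Finset.mem_univ i) h

end Pool.Agent.R330.EU
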