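import Mathlib
import Pool.Agent.R330.EU.Round
import Pool.Agent.Y627.SP.UnifC

/-! Irreducible polynomials of exact degree from vectors congruent to `X^n + 2` modulo `4`. -/

set_option autoImplicit false

open Polynomial Finset

namespace Pool.Agent.R330.EU

open Pool.Agent.W71 Pool.Agent.TH970.SE Pool.Agent.Y627.SP Pool.Agent.H393R2.Geom

/-- the polynomial with given coefficients -/
noncomputable def pz {n : ℕ} (z : Fin (n + 1) → ℤ) : ℤ[X] := ∑ i, C (z i) * X ^ (i : ℕ)

theorem pz_coeff {n : ℕ} (z : Fin (n + 1) → ℤ) (i : Fin (n + 1)) : (pz z).coeff i = z i := by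
  unfold pz
  rw [finsetSum_coeff, Finset.sum_eq_single i]
  · simp
  · intro j _ hj
    rw [coeff_C_mul_X_pow, if_neg]
    intro h
    exact hj (Fin.ext h.symm)
  · intro h
    exact absurd (mem_univ i) h

theorem pz_natDegree {n : ℕ} (z : Fin (n + 1) → ℤ) : (pz z).natDegree ≤ n := by
  unfold pz
  refine natDegree_sum_le_of_forall_le _ _ fun i _ => ?_
  refine (natDegree_C_mul_X_pow_le _ _).trans ?_
  have := i.2
  omega

theorem pz_aeval {n : ℕ} (z : Fin (n + 1) → ℤ) (x : ℝ) :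
    aeval x (pz z) = ∑ j, (z j : ℝ) * x ^ (j : ℕ) := by
  unfold pz
  rw [map_sum]
  apply Finset.sum_congr rfl
  intro i _
  simp

theorem pz_ne {n : ℕ} (z : Fin (n + 1) → ℤ) (hz : z ≠ 0) : pz z ≠ 0 := by
  intro h
  apply hz
  funext i
  rw [← pz_coeff z i, h]
  simp

/-- the vector of `X^n + 2` -/
def bz (n : ℕ) : Fin (n + 1) → ℤ := fun i => if (i : ℕ) = 0 then 2 else if (i : ℕ) = n then 1 else 0

/-- Eisenstein's criterion for the primitive part. -/
theorem eisen {n : ℕ} (hn : 1 ≤ n) (z : Fin (n + 1) → ℤ)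
    (hz : ∀ i, ∃ c : ℤ, z i = bz n i + ((4 : ℕ) : ℤ) * c) :
    ∃ (Q : ℤ[X]) (c : ℤ), 1 ≤ c ∧ pz z = C c * Q ∧ Irreducible Q ∧ Q.natDegree = n ∧
      Q.coeff 0 ≠ 0 := by
  set P := pz z with hP
  have hcoef : ∀ i : ℕ, i ≤ n → ∃ c : ℤ, P.coeff i = (if i = 0 then 2 else if i = n then 1 else 0) + 4 * c := by
    intro i hi
    obtain ⟨c, hc⟩ := hz ⟨i, by omega⟩
    refine ⟨c, ?_⟩
    have h1 := pz_coeff z ⟨i, by omega⟩
    simp only at h1
    rw [hP, h1, hc]
    simp [bz]
  obtain ⟨cn, hcn⟩ := hcoef n le_rfl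
  rw [if_neg (by omega), if_pos rfl] at hcn
  have hPn : P.coeff n ≠ 0 := by omega
  have hP0 : P ≠ 0 := by rintro h; rw [h] at hPn; simp at hPn
  have hdeg : P.natDegree = n := le_antisymm (pz_natDegree z) (le_natDegree_of_ne_zero hPn)
  set c := P.content with hc
  set Q := P.primPart with hQ
  have hPQ : P = C c * Q := P.eq_C_content_mul_primPart
  have hc0 : c ≠ 0 := by rw [hc]; exact content_eq_zero_iff.not.2 hP0
  have hcnn : 0 ≤ c := by
    rw [hc, ← Polynomial.normalize_content]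
    exact Int.nonneg_of_normalize_eq_self (by simp)
  have hQdeg : Q.natDegree = n := by rw [hQ, natDegree_primPart, hdeg]
  have hco : ∀ i, P.coeff i = c * Q.coeff i := by
    intro i
    rw [hPQ]
    simp
  have hcodd : ¬ (2 : ℤ) ∣ c := by
    rintro ⟨d, hd⟩
    have := hco n
    rw [hcn, hd] at this
    have h2 : 1 + 4 * cn = 2 * (d * Q.coeff n) := by rw [this]; ring
    omega
  have hc2 : IsCoprime c 2 := by
    rw [isCoprime_comm]
    exact (Int.prime_two.coprime_iff_not_dvd).2 hcodd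
  have hQ0 : ∀ i, i < n → (2 : ℤ) ∣ Q.coeff i := by
    intro i hi
    obtain ⟨e, he⟩ := hcoef i (by omega)
    have h1 : (2 : ℤ) ∣ c * Q.coeff i := by
      rw [← hco, he, if_neg (by omega : ¬ i = n)]
      split_ifs
      · exact ⟨1 + 2 * e, by ring⟩
      · exact ⟨2 * e, by ring⟩
    exact hc2.symm.dvd_of_dvd_mul_left h1
  have hQ4 : ¬ (4 : ℤ) ∣ Q.coeff 0 := by
    rintro ⟨d, hd⟩
    obtain ⟨e, he⟩ := hcoef 0 (by omega)
    rw [if_pos rfl, hco, hd] at he
    have : (4 : ℤ) * (c * d - e) = 2 := by linarith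
    omega
  have hirr : Irreducible Q := by
    have hprime : (Ideal.span {(2 : ℤ)}).IsPrime := (Ideal.span_singleton_prime (by norm_num)).2 Int.prime_two
    apply irreducible_of_eisenstein_criterion hprime
    · rw [Ideal.mem_span_singleton, leadingCoeff, hQdeg]
      rintro ⟨d, hd⟩
      have := hco n
      rw [hcn, hd] at this
      have h2 : 1 + 4 * cn = 2 * (c * d) := by rw [this]; ring
      omega
    · intro i hi
      rw [Ideal.mem_span_singleton]
      apply hQ0
      rw [degree_eq_natDegree (by rintro h; rw [h] at hQdeg; simp at hQdeg; omega), hQdeg] at hi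
      exact_mod_cast hi
    · rw [degree_eq_natDegree (by rintro h; rw [h] at hQdeg; simp at hQdeg; omega), hQdeg]
      exact_mod_cast hn
    · rw [Ideal.span_singleton_pow, Ideal.mem_span_singleton]
      norm_num
      exact hQ4
    · exact P.isPrimitive_primPart
  refine ⟨Q, c, by omega, hPQ, hirr, hQdeg, ?_⟩
  intro h0
  exact hQ4 (by rw [h0]; exact dvd_zero _)

/-- heights of `Q` and `c Q` -/
theorem hgt_le_mul (Q : ℤ[X]) (c : ℤ) (hc : 1 ≤ c) : (hgt Q : ℝ) ≤ hgt (C c * Q) := by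
  apply hgt_le_real _ (Nat.cast_nonneg _)
  intro i
  have h1 := coeff_le_hgt_real (C c * Q) i
  rw [coeff_C_mul] at h1
  have hcR : (1 : ℝ) ≤ c := by exact_mod_cast hc
  push_cast at h1
  rw [abs_mul, abs_of_pos (by linarith : (0 : ℝ) < c)] at h1
  exact (le_mul_of_one_le_left (abs_nonneg _) hcR).trans h1

end Pool.Agent.R330.EU
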