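import Mathlib
import Pool.Agent.R330.EU.Poly

/-! Uniform exponents of exact degree: the lower bound `n / (w_n - n + 1)`. -/

set_option autoImplicit false

open Polynomial Finset

namespace Pool.Agent.R330.EU

open Pool.Agent.W71 Pool.Agent.TH970.SE Pool.Agent.Y627.SP Pool.Agent.H393R2.Geom

/-- independent vectors with small images -/
theorem indep_small (n : ℕ) (ξ B μ : ℝ) (hB : 0 < B) (hμ : 0 < μ)
    (h : ∀ x : Fin (n + 1) → ℤ, x ≠ 0 → μ ≤ ‖app (Lm n ξ B) x‖) :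
    ∃ G : Matrix (Fin (n + 1)) (Fin (n + 1)) ℤ, G.det ≠ 0 ∧
      ∀ j, ‖app (Lm n ξ B) (G j)‖ ≤ (2 * KK (n + 1)) ^ (n + 1) / μ ^ n := by
  have hdet := Lm_det n ξ B hB.ne'
  obtain ⟨G, hG, hmono, hmin⟩ := minima (Lm n ξ B) ((Lm n ξ B)⁻¹).transpose (by
    rw [Matrix.transpose_transpose, Matrix.nonsing_inv_mul _ (by rw [hdet]; exact isUnit_one)])
  refine ⟨G, hG, fun j => ?_⟩
  have hprod := prod_upper (Lm n ξ B) G (Nat.succ_pos n) (by rw [hdet]; simp) hG hmono hmin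
  have hne : ∀ i, G i ≠ 0 := by
    intro i h0
    exact hG (Matrix.det_eq_zero_of_row_eq_zero i (fun k => by rw [h0]; rfl))
  rw [← Finset.mul_prod_erase _ _ (mem_univ j)] at hprod
  have h1 : μ ^ n ≤ ∏ i ∈ univ.erase j, ‖app (Lm n ξ B) (G i)‖ := by
    calc μ ^ n = ∏ _i ∈ univ.erase j, μ := by
          rw [prod_const, card_erase_of_mem (mem_univ j), card_univ, Fintype.card_fin]
          rfl
      _ ≤ _ := prod_le_prod (fun _ _ => hμ.le) fun i _ => h _ (hne i)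
  rw [le_div_iff₀ (by positivity)]
  exact (mul_le_mul_of_nonneg_left h1 (norm_nonneg _)).trans hprod

/-- the polynomial of exact degree at one scale -/
theorem scale (n : ℕ) (hn : 1 ≤ n) (ξ B lam A D F E : ℝ) (hB : 1 ≤ B) (hA : A = |ξ| + 1)
    (hD : D = ((n : ℝ) + 1) ^ 2 * A ^ n) (hF : F = 1 + D * A) (hE : E = ((n : ℝ) + 1) * (4 * lam))
    (hE1 : 1 ≤ E) (hEB : E ≤ B ^ n)
    (G : Matrix (Fin (n + 1)) (Fin (n + 1)) ℤ) (hG : G.det ≠ 0)
    (hlam : ∀ j, ‖app (Lm n ξ B) (G j)‖ ≤ lam)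
    (hξ : ∀ P : ℤ[X], P ≠ 0 → aeval ξ P ≠ 0) :
    ∃ (α : ℝ) (Q : ℤ[X]), Irreducible Q ∧ Q.natDegree = n ∧ aeval α Q = 0 ∧ α ≠ 0 ∧
      (hgt Q : ℝ) ≤ F * (2 * D + 3) * (B * E) ∧ 0 < |ξ - α| ∧
      |ξ - α| ≤ (hgt Q : ℝ)⁻¹ * (2 * F * E / B ^ n) ∧
      0 < |aeval ξ Q| ∧ |aeval ξ Q| ≤ E / B ^ n := by
  have hB0 : 0 < B := by linarith
  have hA1 : 1 ≤ A := by rw [hA]; linarith [abs_nonneg ξ]
  have hξA : |ξ| ≤ A := by rw [hA]; linarith
  have hD1 : 1 ≤ D := by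
    have h1 : (1 : ℝ) ≤ ((n : ℝ) + 1) ^ 2 :=
      one_le_pow₀ (by linarith [(Nat.cast_nonneg n : (0 : ℝ) ≤ n)])
    have h2 : (1 : ℝ) ≤ A ^ n := one_le_pow₀ hA1
    rw [hD]; exact one_le_mul_of_one_le_of_one_le h1 h2
  have hF1 : 1 ≤ F := by
    have h1 : 0 ≤ D * A := mul_nonneg (by linarith) (by linarith)
    rw [hF]; linarith
  set R : ℝ := (2 * D + 2) * E with hR
  have hdet : (Lm n ξ B).det ≠ 0 := by rw [Lm_det n ξ B hB0.ne']; exact one_ne_zero
  obtain ⟨z, hz, hzn⟩ := round_lem (Lm n ξ B) hdet G hG lam hlam (bz n) 4 (by norm_num)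
    (fun i => if (i : ℕ) = 1 then R else 0)
  have hzn' : ‖app (Lm n ξ B) z - (fun i : Fin (n + 1) => if (i : ℕ) = 1 then R else 0)‖ ≤ E := by
    rw [hE]
    push_cast at hzn
    exact hzn
  have hcoord : ∀ i, |app (Lm n ξ B) z i - (if (i : ℕ) = 1 then R else 0)| ≤ E := by
    intro i
    have h1 := norm_le_pi_norm (app (Lm n ξ B) z -
      (fun i : Fin (n + 1) => if (i : ℕ) = 1 then R else 0)) i
    rw [Real.norm_eq_abs] at h1
    exact h1.trans hzn'
  obtain ⟨Q, c, hc, hPQ, hirr, hQdeg, hQ0⟩ := eisen hn z hz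
  set P := pz z with hP
  have hP0 : P ≠ 0 := by
    rw [hPQ]
    exact mul_ne_zero (C_ne_zero.2 (by omega)) hirr.ne_zero
  have hPn : P.natDegree ≤ n := pz_natDegree z
  -- the value at `ξ`
  have hval : |aeval ξ P| ≤ E / B ^ n := by
    have h1 := hcoord 0
    simp only [Fin.val_zero] at h1
    rw [if_neg (by norm_num), sub_zero, Lm_app_zero, ← pz_aeval, abs_mul,
      abs_of_pos (by positivity : (0 : ℝ) < B ^ n)] at h1
    rw [le_div_iff₀ (by positivity), mul_comm]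
    exact h1
  have hval1 : |aeval ξ P| ≤ 1 := hval.trans (by rw [div_le_one (by positivity)]; exact hEB)
  -- the other coefficients
  have hc2 : ∀ i, 2 ≤ i → |(P.coeff i : ℝ)| ≤ B * E := by
    intro i hi
    by_cases hin : i ≤ n
    · have h1 := hcoord ⟨i, by omega⟩
      simp only at h1
      rw [if_neg (by omega), sub_zero, Lm_app _ _ _ _ _ (by
        intro h; have := congrArg Fin.val h; simp at this; omega), abs_div, abs_of_pos hB0,
        div_le_iff₀ hB0] at h1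
      have h2 := pz_coeff z ⟨i, by omega⟩
      simp only at h2
      rw [hP, h2, mul_comm]
      exact h1
    · rw [coeff_eq_zero_of_natDegree_lt (by omega)]
      simp only [Int.cast_zero, abs_zero]
      positivity
  have hc1 : |(P.coeff 1 : ℝ) / B - R| ≤ E := by
    have h1 := hcoord ⟨1, by omega⟩
    simp only [if_true] at h1
    rw [Lm_app _ _ _ _ _ (by
        intro h; have := congrArg Fin.val h; simp at this)] at h1
    have h2 := pz_coeff z ⟨1, by omega⟩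
    simp only at h2
    rw [hP, h2]
    exact h1
  rw [abs_le] at hc1
  have hc1lo : (2 * D + 1) * (B * E) ≤ P.coeff 1 := by
    have h1 : R - E ≤ (P.coeff 1 : ℝ) / B := by linarith [hc1.1]
    rw [le_div_iff₀ hB0] at h1
    rw [hR] at h1
    linarith
  have hc1hi : (P.coeff 1 : ℝ) ≤ (2 * D + 3) * (B * E) := by
    have h1 : (P.coeff 1 : ℝ) / B ≤ R + E := by linarith [hc1.2]
    rw [div_le_iff₀ hB0] at h1
    rw [hR] at h1
    linarith
  have hBE : 1 ≤ B * E := one_le_mul_of_one_le_of_one_le hB hE1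
  have hpos1 : (1 : ℝ) ≤ P.coeff 1 := by nlinarith
  have habs : |(P.coeff 1 : ℝ)| = P.coeff 1 := abs_of_pos (by linarith)
  obtain ⟨α, hα, hαd⟩ := root_near n hn P hPn (B * E) (by linarith) hc2 ξ A hA
    (by rw [habs, ← hD]; nlinarith) (by rw [habs]; linarith)
    (by rw [habs]; nlinarith)
  rw [habs] at hαd
  have hcR : (1 : ℝ) ≤ c := by exact_mod_cast hc
  have hQα : aeval α Q = 0 := by
    rw [hPQ, map_mul, aeval_C] at hα
    rcases mul_eq_zero.1 hα with h | h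
    · exfalso
      simp only [algebraMap_int_eq, eq_intCast] at h
      linarith
    · exact h
  have hα0 : α ≠ 0 := by
    rintro rfl
    rw [← coeff_zero_eq_aeval_zero'] at hQα
    simp only [algebraMap_int_eq, eq_intCast] at hQα
    exact hQ0 (by exact_mod_cast hQα)
  have hca : ∀ i, 1 ≤ i → |(P.coeff i : ℝ)| ≤ P.coeff 1 := by
    intro i hi
    rcases Nat.lt_or_ge 1 i with h2 | h2
    · refine (hc2 i h2).trans ?_
      nlinarith
    · have : i = 1 := by omega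
      subst this
      rw [habs]
  have hPa : (hgt P : ℝ) ≤ F * P.coeff 1 := by
    have := hgt_le_of_coeff n P hPn (P.coeff 1) hpos1 hca ξ A hA1 hξA hval1
    rw [← hD, ← hF] at this
    exact this
  have hQP : (hgt Q : ℝ) ≤ hgt P := by rw [hPQ]; exact hgt_le_mul Q c hc
  have hQ1 : (1 : ℝ) ≤ hgt Q := by exact_mod_cast hgt_pos hirr.ne_zero
  have hQpos : (0 : ℝ) < hgt Q := by linarith
  have hBn : (0 : ℝ) < B ^ n := by positivity
  refine ⟨α, Q, hirr, hQdeg, hQα, hα0, ?_, ?_, ?_, ?_, ?_⟩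
  · calc (hgt Q : ℝ) ≤ F * P.coeff 1 := hQP.trans hPa
      _ ≤ F * ((2 * D + 3) * (B * E)) := mul_le_mul_of_nonneg_left hc1hi (by linarith)
      _ = _ := by ring
  · rw [abs_pos, sub_ne_zero]
    rintro rfl
    exact hξ Q hirr.ne_zero hQα
  · refine hαd.trans ?_
    rw [div_le_iff₀ (by linarith)]
    have h1 : (hgt Q : ℝ)⁻¹ * (2 * F * E / B ^ n) * P.coeff 1 =
        2 * (E / B ^ n) * ((F * P.coeff 1) * (hgt Q : ℝ)⁻¹) := by ring
    rw [h1]
    have h2 : 1 ≤ (F * P.coeff 1) * (hgt Q : ℝ)⁻¹ := by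
      rw [← div_eq_mul_inv, one_le_div hQpos]
      exact hQP.trans hPa
    have h3 : 0 ≤ E / B ^ n := by positivity
    nlinarith [mul_le_mul_of_nonneg_left h2 h3]
  · rw [abs_pos]
    exact hξ Q hirr.ne_zero
  · refine le_trans ?_ hval
    rw [hPQ, map_mul, aeval_C, abs_mul]
    simp only [algebraMap_int_eq, eq_intCast]
    rw [abs_of_pos (by linarith : (0 : ℝ) < c)]
    exact le_mul_of_one_le_left (abs_nonneg _) hcR

theorem exact_unif_lower (n : ℕ) (hn : 1 ≤ n) (ξ w r : ℝ) (hw : (n : ℝ) ≤ w) (hr : 0 < r)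
    (hrw : r * (w - n + 1) < n)
    (hξ : ∀ P : ℤ[X], P ≠ 0 → aeval ξ P ≠ 0)
    (hfin : ∀ v : ℝ, w < v → {P : ℤ[X] | P ≠ 0 ∧ P.natDegree ≤ n ∧
      |aeval ξ P| ≤ ((Ht n P : ℕ) : ℝ) ^ (-v)}.Finite) :
    ∃ X₀ : ℝ, ∀ X : ℝ, X₀ ≤ X → ∃ (α : ℝ) (Q : ℤ[X]), Irreducible Q ∧ Q.natDegree = n ∧
      aeval α Q = 0 ∧ α ≠ 0 ∧ (hgt Q : ℝ) ≤ X ∧ 0 < |ξ - α| ∧
      |ξ - α| ≤ (hgt Q : ℝ)⁻¹ * X ^ (-r) ∧ 0 < |aeval ξ Q| ∧ |aeval ξ Q| ≤ X ^ (-r) := by
  have hn1 : (1 : ℝ) ≤ n := by exact_mod_cast hn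
  set g : ℝ := n - r * (w - n + 1) with hg
  have hg0 : 0 < g := by rw [hg]; linarith
  set ε : ℝ := g / (4 * (r + 1)) with hε
  have hε0 : 0 < ε := by rw [hε]; positivity
  set v : ℝ := w + ε with hv
  set v' : ℝ := w + 2 * ε with hv'
  have hv0 : 0 < v := by rw [hv]; linarith
  have hv'1 : 0 < v' + 1 := by rw [hv']; linarith
  have hrv' : r * (v' - n + 1) < n := by
    have h1 : ε * (4 * (r + 1)) = g := by rw [hε]; field_simp
    have h2 : r * (v' - n + 1) = r * (w - n + 1) + 2 * (ε * r) := by rw [hv']; ring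
    have h1' : 4 * (ε * r) + 4 * ε = g := by rw [← h1]; ring
    rw [h2]
    linarith
  set η : ℝ := (v' - n) / (v' + 1) with hη
  have hη0 : 0 ≤ η := by rw [hη]; apply div_nonneg <;> linarith
  have hη1 : η < 1 := by rw [hη, div_lt_one hv'1]; linarith
  have hηe : η * (v' + 1) = v' - n := by rw [hη]; field_simp
  set a : ℝ := 1 + n * η with ha
  set b : ℝ := n - n * η with hb
  have ha1 : 1 ≤ a := by rw [ha]; nlinarith
  have ha0 : 0 < a := by linarith
  have hb0 : 0 < b := by rw [hb]; nlinarith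
  set δ₁ : ℝ := (n + η) - v * (1 - η) with hδ₁
  have hδ₁0 : 0 < δ₁ := by
    have h1 : δ₁ * (v' + 1) = (n + 1) * ε := by
      rw [hδ₁]
      have : ((n + η) - v * (1 - η)) * (v' + 1) =
        n * (v' + 1) + η * (v' + 1) - v * (v' + 1) + v * (η * (v' + 1)) := by ring
      rw [this, hηe, hv, hv']
      ring
    have h2 : 0 < δ₁ * (v' + 1) := by rw [h1]; positivity
    exact (mul_pos_iff_of_pos_right hv'1).1 h2
  set δ₂ : ℝ := b - r * a with hδ₂
  have hδ₂0 : 0 < δ₂ := by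
    have h1 : δ₂ * (v' + 1) = (n + 1) * (n - r * (v' - n + 1)) := by
      rw [hδ₂, hb, ha]
      have : (n - n * η - r * (1 + n * η)) * (v' + 1) =
        n * (v' + 1) - n * (η * (v' + 1)) - r * (v' + 1) - r * n * (η * (v' + 1)) := by ring
      rw [this, hηe]
      ring
    have h2 : 0 < δ₂ * (v' + 1) := by
      rw [h1]
      apply mul_pos (by linarith) (by linarith)
    exact (mul_pos_iff_of_pos_right hv'1).1 h2
  set A : ℝ := |ξ| + 1 with hA
  have hA1 : 1 ≤ A := by rw [hA]; linarith [abs_nonneg ξ]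
  have hξA : |ξ| ≤ A := by rw [hA]; linarith
  set D : ℝ := ((n : ℝ) + 1) ^ 2 * A ^ n with hD
  have hD1 : 1 ≤ D := by
    have h1 : (1 : ℝ) ≤ ((n : ℝ) + 1) ^ 2 := one_le_pow₀ (by linarith)
    have h2 : (1 : ℝ) ≤ A ^ n := one_le_pow₀ hA1
    rw [hD]; exact one_le_mul_of_one_le_of_one_le h1 h2
  set F : ℝ := 1 + D * A with hF
  have hF1 : 1 ≤ F := by
    have h1 : 0 ≤ D * A := mul_nonneg (by linarith) (by linarith)
    rw [hF]; linarith
  have hF0 : 0 < F := by linarith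
  have hKK := one_le_KK (n := n + 1) (Nat.succ_pos n)
  set K₀ : ℝ := (2 * KK (n + 1)) ^ (n + 1) with hK₀
  have hK₀1 : 1 ≤ K₀ := by rw [hK₀]; exact one_le_pow₀ (by linarith)
  set C₂ : ℝ := ((n : ℝ) + 1) * (4 * K₀) with hC₂
  have hC₂1 : 1 ≤ C₂ := by rw [hC₂]; nlinarith
  have hC₂0 : 0 < C₂ := by linarith
  set C₁ : ℝ := F * (2 * D + 3) * C₂ with hC₁
  have hC₁1 : 1 ≤ C₁ := by
    rw [hC₁]
    exact one_le_mul_of_one_le_of_one_le
      (one_le_mul_of_one_le_of_one_le hF1 (by linarith)) hC₂1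
  have hC₁0 : 0 < C₁ := by linarith
  obtain ⟨Z₀, hZ₀⟩ := upper (n := n) ξ v hv0 hξ (hfin v (by rw [hv]; linarith))
  have h1η : 0 < 1 - η := by linarith
  have hev : ∀ᶠ B : ℝ in Filter.atTop, 1 ≤ B ∧ Z₀ ≤ F * B ^ (1 - η) ∧
      F ^ v ≤ B ^ δ₁ ∧ C₂ ≤ B ^ b ∧ 2 * F * C₂ * C₁ ^ r ≤ B ^ δ₂ := by
    have t1 : Filter.Tendsto (fun B : ℝ => F * B ^ (1 - η)) Filter.atTop Filter.atTop :=
      (tendsto_rpow_atTop h1η).const_mul_atTop hF0
    filter_upwards [Filter.eventually_ge_atTop (1 : ℝ), t1.eventually_ge_atTop Z₀,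
      (tendsto_rpow_atTop hδ₁0).eventually_ge_atTop (F ^ v),
      (tendsto_rpow_atTop hb0).eventually_ge_atTop C₂,
      (tendsto_rpow_atTop hδ₂0).eventually_ge_atTop (2 * F * C₂ * C₁ ^ r)] with B h1 h2 h3 h4 h5
    exact ⟨h1, h2, h3, h4, h5⟩
  obtain ⟨B₀', hB₀'⟩ := Filter.eventually_atTop.1 hev
  set B₀ : ℝ := max B₀' 1 with hB₀
  have hB₀1 : 1 ≤ B₀ := le_max_right _ _
  refine ⟨C₁ * B₀ ^ a, fun X hX => ?_⟩
  have hXpos : 0 < X := lt_of_lt_of_le (by positivity) hX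
  set B : ℝ := (X / C₁) ^ (1 / a) with hBdef
  have hXC : 0 < X / C₁ := by positivity
  have hBa : B ^ a = X / C₁ := by
    rw [hBdef, ← Real.rpow_mul hXC.le, one_div_mul_cancel ha0.ne', Real.rpow_one]
  have hXB : X = C₁ * B ^ a := by rw [hBa]; field_simp
  have hBge : B₀ ≤ B := by
    have h1 : B₀ ^ a ≤ X / C₁ := by rw [le_div_iff₀ hC₁0, mul_comm]; exact hX
    have h2 : (B₀ ^ a) ^ (1 / a) ≤ (X / C₁) ^ (1 / a) :=
      Real.rpow_le_rpow (by positivity) h1 (by positivity)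
    rwa [← Real.rpow_mul (by linarith), mul_one_div_cancel ha0.ne', Real.rpow_one] at h2
  obtain ⟨g1, g2, g3, g4, g5⟩ := hB₀' B ((le_max_left _ _).trans hBge)
  have hBpos : 0 < B := by linarith
  set μ : ℝ := B ^ (-η) with hμ
  have hμ0 : 0 < μ := by positivity
  -- the first minimum
  have hmin : ∀ x : Fin (n + 1) → ℤ, x ≠ 0 → μ ≤ ‖app (Lm n ξ B) x‖ := by
    intro x hx
    by_contra hcon
    push Not at hcon
    have hcoord : ∀ i, |app (Lm n ξ B) x i| ≤ μ := by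
      intro i
      have h1 := norm_le_pi_norm (app (Lm n ξ B) x) i
      rw [Real.norm_eq_abs] at h1
      linarith
    have hval : |aeval ξ (pz x)| ≤ B ^ (-(n + η)) := by
      have h1 := hcoord 0
      rw [Lm_app_zero, ← pz_aeval, abs_mul, abs_of_pos (by positivity : (0 : ℝ) < B ^ n)] at h1
      have h2 : B ^ (-(n + η)) * B ^ n = μ := by
        rw [hμ, ← Real.rpow_natCast, ← Real.rpow_add hBpos]
        congr 1; ring
      have h3 : (0 : ℝ) < B ^ n := by positivity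
      rw [← h2, mul_comm] at h1
      exact le_of_mul_le_mul_right h1 h3
    have hH1 : 1 ≤ B ^ (1 - η) := Real.one_le_rpow g1 h1η.le
    have hco : ∀ i, 1 ≤ i → |((pz x).coeff i : ℝ)| ≤ B ^ (1 - η) := by
      intro i hi
      by_cases hin : i ≤ n
      · have h1 := hcoord ⟨i, by omega⟩
        rw [Lm_app _ _ _ _ _ (by
          intro h; have := congrArg Fin.val h; simp at this; omega), abs_div,
          abs_of_pos hBpos, div_le_iff₀ hBpos] at h1
        have h2 := pz_coeff x ⟨i, by omega⟩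
        simp only at h2
        rw [h2]
        refine h1.trans (le_of_eq ?_)
        rw [hμ]
        nth_rw 2 [← Real.rpow_one B]
        rw [← Real.rpow_add hBpos]
        congr 1; ring
      · rw [coeff_eq_zero_of_natDegree_lt (lt_of_le_of_lt (pz_natDegree x) (by omega))]
        simp only [Int.cast_zero, abs_zero]
        positivity
    have hval1 : |aeval ξ (pz x)| ≤ 1 := hval.trans
      (Real.rpow_le_one_of_one_le_of_nonpos g1 (by linarith))
    have h2 := hgt_le_of_coeff n (pz x) (pz_natDegree x) (B ^ (1 - η)) hH1 hco ξ A hA1 hξA hval1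
    rw [← hD, ← hF] at h2
    have h3 := hZ₀ (F * B ^ (1 - η)) g2 (one_le_mul_of_one_le_of_one_le hF1 hH1) (pz x)
      (pz_ne x hx) (pz_natDegree x) h2
    have h4 : (F * B ^ (1 - η)) ^ (-v) < B ^ (-(n + η)) := h3.trans_le hval
    rw [Real.mul_rpow hF0.le (by positivity), ← Real.rpow_mul hBpos.le] at h4
    have p1 : (0 : ℝ) < F ^ v := by positivity
    have p2 : (0 : ℝ) < B ^ (n + η) := by positivity
    have q1 : F ^ v * F ^ (-v) = 1 := by rw [← Real.rpow_add hF0]; simp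
    have q2 : B ^ (n + η) * B ^ ((1 - η) * -v) = B ^ δ₁ := by
      rw [← Real.rpow_add hBpos]
      congr 1
      rw [hδ₁]; ring
    have q3 : B ^ (n + η) * B ^ (-(n + η)) = 1 := by rw [← Real.rpow_add hBpos]; simp
    have h5 : B ^ δ₁ < F ^ v := by
      calc B ^ δ₁ = (F ^ v * F ^ (-v)) * (B ^ (n + η) * B ^ ((1 - η) * -v)) := by
            rw [q1, one_mul, q2]
        _ = (F ^ v * B ^ (n + η)) * (F ^ (-v) * B ^ ((1 - η) * -v)) := by ring
        _ < (F ^ v * B ^ (n + η)) * B ^ (-(n + η)) :=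
            mul_lt_mul_of_pos_left h4 (by positivity)
        _ = F ^ v * (B ^ (n + η) * B ^ (-(n + η))) := by ring
        _ = F ^ v := by rw [q3, mul_one]
    linarith
  obtain ⟨G, hG, hGle⟩ := indep_small n ξ B μ hBpos hμ0 hmin
  set lam : ℝ := K₀ * B ^ (n * η) with hlam
  have hlamle : ∀ j, ‖app (Lm n ξ B) (G j)‖ ≤ lam := by
    intro j
    refine (hGle j).trans (le_of_eq ?_)
    rw [hlam, hK₀, hμ, ← Real.rpow_natCast (B ^ (-η)), ← Real.rpow_mul hBpos.le, div_eq_mul_inv,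
      ← Real.rpow_neg hBpos.le]
    congr 2; ring
  set E : ℝ := ((n : ℝ) + 1) * (4 * lam) with hE
  have hEC : E = C₂ * B ^ (n * η) := by rw [hE, hlam, hC₂]; ring
  have hBnη : 1 ≤ B ^ (n * η) := Real.one_le_rpow g1 (by positivity)
  have hE1 : 1 ≤ E := by rw [hEC]; exact one_le_mul_of_one_le_of_one_le hC₂1 hBnη
  have hBb : B ^ b * B ^ (n * η) = B ^ n := by
    rw [← Real.rpow_natCast, ← Real.rpow_add hBpos]
    congr 1; rw [hb]; ring
  have hEB : E ≤ B ^ n := by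
    rw [hEC, ← hBb]
    gcongr
  obtain ⟨α, Q, k1, k2, k3, k4, k5, k6, k7, k8, k9⟩ := scale n hn ξ B lam A D F E g1 hA hD hF hE
    hE1 hEB G hG hlamle hξ
  have hXr : X ^ (-r) = C₁ ^ (-r) * B ^ (-(r * a)) := by
    rw [hXB, Real.mul_rpow hC₁0.le (by positivity), ← Real.rpow_mul hBpos.le]
    congr 2; ring
  have hfin2 : 2 * F * E / B ^ n ≤ X ^ (-r) := by
    rw [hXr]
    have h1 : 2 * F * E / B ^ n = 2 * F * C₂ * B ^ (-b) := by
      rw [hEC, ← hBb, Real.rpow_neg hBpos.le]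
      field_simp
    rw [h1]
    have h2 : B ^ δ₂ * B ^ (-b) = B ^ (-(r * a)) := by
      rw [← Real.rpow_add hBpos]
      congr 1
      rw [hδ₂]; ring
    have h3 : C₁ ^ r * C₁ ^ (-r) = 1 := by rw [← Real.rpow_add hC₁0]; simp
    calc 2 * F * C₂ * B ^ (-b) = (2 * F * C₂ * C₁ ^ r) * (C₁ ^ (-r) * B ^ (-b)) := by
          calc 2 * F * C₂ * B ^ (-b) = 2 * F * C₂ * B ^ (-b) * (C₁ ^ r * C₁ ^ (-r)) := by
                rw [h3, mul_one]
            _ = _ := by ring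
      _ ≤ B ^ δ₂ * (C₁ ^ (-r) * B ^ (-b)) := mul_le_mul_of_nonneg_right g5 (by positivity)
      _ = C₁ ^ (-r) * (B ^ δ₂ * B ^ (-b)) := by ring
      _ = C₁ ^ (-r) * B ^ (-(r * a)) := by rw [h2]
  refine ⟨α, Q, k1, k2, k3, k4, ?_, k6, ?_, k8, ?_⟩
  · refine k5.trans (le_of_eq ?_)
    rw [hXB, hEC, hC₁, ha, Real.rpow_add hBpos, Real.rpow_one]
    ring
  · have hQ1 : (0 : ℝ) ≤ (hgt Q : ℝ)⁻¹ := by positivity
    exact k7.trans (mul_le_mul_of_nonneg_left hfin2 hQ1)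
  · refine k9.trans (le_trans ?_ hfin2)
    have h0 : 0 ≤ E / B ^ n := by positivity
    have : 2 * F * E / B ^ n = (2 * F) * (E / B ^ n) := by ring
    rw [this]
    exact le_mul_of_one_le_left h0 (by linarith)

end Pool.Agent.R330.EU
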