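import Mathlib
import Pool.Agent.R330.EU.Lower
import Pool.Agent.Y627.SP.UnifB

/-! Uniform exponents of exact degree: the upper bound `n / (w_1 - n + 1)`. -/

set_option autoImplicit false

open Polynomial Finset

namespace Pool.Agent.R330.EU

open Pool.Agent.W71 Pool.Agent.TH970.SE Pool.Agent.Y627.SP

/-- good rational approximations make the values of irreducible polynomials of degree `n ≥ 2`
large -/
theorem exact_unif_upper (n : ℕ) (hn : 2 ≤ n) (ξ w r : ℝ) (hw : (n : ℝ) ≤ w)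
    (hwr : (n : ℝ) < r * (w - n + 1))
    (hinf : {α : ℝ | ∃ P : ℤ[X], MinPolyZ P α ∧ P.natDegree = 1 ∧
      |ξ - α| < (hgt P : ℝ) ^ (-(1 + w))}.Infinite) (X₀ : ℝ) :
    ∃ X : ℝ, X₀ ≤ X ∧ 1 ≤ X ∧ ∀ Q : ℤ[X], Irreducible Q → Q.natDegree = n →
      (hgt Q : ℝ) ≤ X → X ^ (-r) < |aeval ξ Q| := by
  have hnR : (2 : ℝ) ≤ n := by exact_mod_cast hn
  set g : ℝ := w - n + 1 with hg
  have hg1 : 1 ≤ g := by rw [hg]; linarith
  have hr : 0 < r := by
    by_contra h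
    push Not at h
    nlinarith
  set A : ℝ := |ξ| + 1 with hA
  have hA1 : 1 ≤ A := by rw [hA]; linarith [abs_nonneg ξ]
  set D : ℝ := ((n : ℝ) + 1) ^ 2 * A ^ n with hD
  have hD1 : 1 ≤ D := by
    have h1 : (1 : ℝ) ≤ ((n : ℝ) + 1) ^ 2 := one_le_pow₀ (by linarith)
    have h2 : (1 : ℝ) ≤ A ^ n := one_le_pow₀ hA1
    rw [hD]; nlinarith
  set κ : ℝ := 1 / (2 * D) with hκ
  have hκ0 : 0 < κ := by rw [hκ]; positivity
  have hev : ∀ᶠ H : ℝ in Filter.atTop, 1 ≤ H ∧ X₀ ≤ κ * H ^ g ∧ 1 ≤ κ * H ^ g ∧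
      2 * κ ^ (-r) < H ^ (r * g - n) := by
    have t1 : Filter.Tendsto (fun H : ℝ => κ * H ^ g) Filter.atTop Filter.atTop :=
      (tendsto_rpow_atTop (by linarith)).const_mul_atTop hκ0
    have t2 : Filter.Tendsto (fun H : ℝ => H ^ (r * g - n)) Filter.atTop Filter.atTop :=
      tendsto_rpow_atTop (by linarith)
    filter_upwards [Filter.eventually_ge_atTop (1 : ℝ), t1.eventually_ge_atTop X₀,
      t1.eventually_ge_atTop 1, t2.eventually_gt_atTop _] with H h1 h3 h4 h5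
    exact ⟨h1, h3, h4, h5⟩
  obtain ⟨H₀, hH₀⟩ := Filter.eventually_atTop.1 hev
  obtain ⟨α0, P, h1, h2, h3, ⟨h4, h5, h6⟩, h7⟩ := exists_big (n := 1) _
    (fun P α => MinPolyZ P α ∧ P.natDegree = 1 ∧ |ξ - α| < (hgt P : ℝ) ^ (-(1 + w)))
    hinf
    (by
      rintro α ⟨P, h1, h2, h3⟩
      refine ⟨P, ?_, h2.le, h1.2.2.2.1, h1, h2, h3⟩
      rintro rfl
      have := h1.2.1
      simp at this) H₀
  obtain ⟨g1, g3, g4, g5⟩ := hH₀ _ h7.le
  set H : ℝ := (hgt P : ℝ) with hH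
  have hH0 : 0 < H := by linarith
  set X : ℝ := κ * H ^ g with hX
  have hX0 : 0 < X := by linarith
  refine ⟨X, g3, g4, fun Q hQ hQn hQX => ?_⟩
  by_contra hcon
  push Not at hcon
  have hQ0 : Q ≠ 0 := hQ.ne_zero
  have hq0 : (0 : ℝ) ≤ hgt Q := Nat.cast_nonneg _
  have hξA : |ξ| ≤ A := by rw [hA]; linarith
  have hα0d : |ξ - α0| ≤ 1 := by
    refine h6.le.trans ?_
    exact Real.rpow_le_one_of_one_le_of_nonpos g1 (by linarith)
  have hα0A : |α0| ≤ A := by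
    rw [hA]
    have := abs_sub_abs_le_abs_sub α0 ξ
    rw [abs_sub_comm] at this
    linarith
  have hc : aeval α0 Q ≠ 0 := by
    intro hc
    have h8 := natDegree_le_of_dvd (dvd_of_root Q P α0 hQ hc h3) h1
    omega
  have e1 := val_rat n Q P hQn.le h5 α0 h3 hc
  rw [← hH] at e1
  have hHn0 : 0 < H ^ n := by positivity
  have e2 := val_diff n Q hQn.le (hgt Q) hq0 (coeff_le_hgt_real Q) α0 ξ A hA1 hα0A hξA
  have e3 : |aeval α0 Q - aeval ξ Q| ≤ X * D * H ^ (-(1 + w)) := by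
    refine e2.trans ?_
    rw [abs_sub_comm α0 ξ]
    gcongr
  have e4 : X * D * H ^ (-(1 + w)) * H ^ n = 1 / 2 := by
    have q1 : H ^ g * H ^ (-(1 + w)) * H ^ n = 1 := by
      rw [← Real.rpow_natCast, ← Real.rpow_add hH0, ← Real.rpow_add hH0]
      have : g + -(1 + w) + (n : ℝ) = 0 := by rw [hg]; ring
      rw [this, Real.rpow_zero]
    have hD0 : D ≠ 0 := by linarith
    calc X * D * H ^ (-(1 + w)) * H ^ n = (κ * D) * (H ^ g * H ^ (-(1 + w)) * H ^ n) := by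
          rw [hX]; ring
      _ = κ * D := by rw [q1, mul_one]
      _ = 1 / 2 := by rw [hκ]; field_simp
  have e5 : 1 / 2 ≤ H ^ n * |aeval ξ Q| := by
    have t1 : |aeval α0 Q| ≤ |aeval ξ Q| + X * D * H ^ (-(1 + w)) := by
      have := abs_sub_abs_le_abs_sub (aeval α0 Q) (aeval ξ Q)
      linarith
    have t2 := mul_le_mul_of_nonneg_left t1 hHn0.le
    have t3 : H ^ n * (X * D * H ^ (-(1 + w))) = 1 / 2 := by rw [← e4]; ring
    rw [mul_add, t3] at t2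
    linarith
  have e6 : H ^ (r * g - n) ≤ 2 * κ ^ (-r) := by
    have p2 : (0 : ℝ) < H ^ (r * g - n) := by positivity
    have q2 : H ^ (r * g - n) * (H ^ n * H ^ (-(r * g))) = 1 := by
      rw [← Real.rpow_natCast, ← Real.rpow_add hH0, ← Real.rpow_add hH0]
      have : r * g - n + ((n : ℝ) + -(r * g)) = 0 := by ring
      rw [this, Real.rpow_zero]
    have hXr : X ^ (-r) = κ ^ (-r) * H ^ (-(r * g)) := by
      rw [hX, Real.mul_rpow hκ0.le (by positivity), ← Real.rpow_mul hH0.le]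
      congr 2; ring
    have t4 : 1 / 2 ≤ κ ^ (-r) * (H ^ n * H ^ (-(r * g))) := by
      refine e5.trans ?_
      calc H ^ n * |aeval ξ Q| ≤ H ^ n * (κ ^ (-r) * H ^ (-(r * g))) := by
            rw [← hXr]; gcongr
        _ = _ := by ring
    have t5 := mul_le_mul_of_nonneg_left t4 p2.le
    have t6 : H ^ (r * g - n) * (κ ^ (-r) * (H ^ n * H ^ (-(r * g)))) = κ ^ (-r) := by
      calc _ = κ ^ (-r) * (H ^ (r * g - n) * (H ^ n * H ^ (-(r * g)))) := by ring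
        _ = κ ^ (-r) := by rw [q2, mul_one]
    rw [t6] at t5
    linarith
  linarith

/-- the starred version -/
theorem exact_unif_upper_star (n : ℕ) (hn : 2 ≤ n) (ξ w r : ℝ) (hw : (n : ℝ) ≤ w)
    (hwr : (n : ℝ) < r * (w - n + 1))
    (hinf : {α : ℝ | ∃ P : ℤ[X], MinPolyZ P α ∧ P.natDegree = 1 ∧
      |ξ - α| < (hgt P : ℝ) ^ (-(1 + w))}.Infinite) (X₀ : ℝ) :
    ∃ X : ℝ, X₀ ≤ X ∧ 1 ≤ X ∧ ∀ (α : ℝ) (Q : ℤ[X]), Irreducible Q → Q.natDegree = n →
      aeval α Q = 0 → (hgt Q : ℝ) ≤ X → (hgt Q : ℝ)⁻¹ * X ^ (-r) < |ξ - α| := by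
  have hnR : (2 : ℝ) ≤ n := by exact_mod_cast hn
  have hg0 : 0 < w - n + 1 := by linarith
  have hr : 0 < r := by
    by_contra h
    push Not at h
    nlinarith
  obtain ⟨r₁, hr₁, hr₁'⟩ : ∃ r₁ : ℝ, (n : ℝ) / (w - n + 1) < r₁ ∧ r₁ < r :=
    exists_between (by rwa [div_lt_iff₀ hg0])
  rw [div_lt_iff₀ hg0] at hr₁
  set A : ℝ := |ξ| + 1 with hA
  have hA1 : 1 ≤ A := by rw [hA]; linarith [abs_nonneg ξ]
  have hξA : |ξ| ≤ A := by rw [hA]; linarith
  set D : ℝ := ((n : ℝ) + 1) ^ 2 * A ^ n with hD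
  have hD0 : 0 < D := by rw [hD]; positivity
  obtain ⟨X₁, hX₁⟩ := Filter.eventually_atTop.1
    ((tendsto_rpow_atTop (sub_pos.2 hr₁')).eventually_ge_atTop D)
  obtain ⟨X, h1, h2, h3⟩ := exact_unif_upper n hn ξ w r₁ hw hr₁ hinf (max X₀ X₁)
  have hX0 : 0 < X := by linarith
  refine ⟨X, (le_max_left _ _).trans h1, h2, fun α Q hQ hQn hQα hQX => ?_⟩
  by_contra hcon
  push Not at hcon
  have hq1 : (1 : ℝ) ≤ hgt Q := by exact_mod_cast hgt_pos hQ.ne_zero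
  have hq0 : (0 : ℝ) < hgt Q := by linarith
  have hXr : X ^ (-r) ≤ 1 := Real.rpow_le_one_of_one_le_of_nonpos h2 (by linarith)
  have hXr0 : 0 < X ^ (-r) := by positivity
  have hd1 : |ξ - α| ≤ 1 := by
    refine hcon.trans ?_
    calc (hgt Q : ℝ)⁻¹ * X ^ (-r) ≤ 1 * 1 := by
          apply mul_le_mul (inv_le_one_of_one_le₀ hq1) hXr hXr0.le zero_le_one
      _ = 1 := one_mul 1
  have hαA : |α| ≤ A := by
    rw [hA]
    have := abs_sub_abs_le_abs_sub α ξ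
    rw [abs_sub_comm] at this
    linarith
  have hsmall : |aeval ξ Q| ≤ D * X ^ (-r) := by
    have e1 := val_diff n Q hQn.le (hgt Q) hq0.le (coeff_le_hgt_real Q) ξ α A hA1 hξA hαA
    rw [hQα, sub_zero] at e1
    calc |aeval ξ Q| ≤ (hgt Q : ℝ) * D * |ξ - α| := e1
      _ ≤ (hgt Q : ℝ) * D * ((hgt Q : ℝ)⁻¹ * X ^ (-r)) := by gcongr
      _ = D * X ^ (-r) := by field_simp
  have h4 := h3 Q hQ hQn hQX
  have h5 := hX₁ X ((le_max_right _ _).trans h1)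
  have h6 : D * X ^ (-r) ≤ X ^ (-r₁) := by
    calc D * X ^ (-r) ≤ X ^ (r - r₁) * X ^ (-r) := by gcongr
      _ = X ^ (-r₁) := by rw [← Real.rpow_add hX0]; ring_nf
  linarith

end Pool.Agent.R330.EU
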